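import Mathlib
import Pool.Agent.X85.OJ.Iso

set_option autoImplicit false

open scoped ContDiff

/-- The vector field `P ∂_x + Q ∂_y` has orthogonal Jacobian columns: `P_x P_y + Q_x Q_y = 0` on the
whole plane. -/
def Pool.Agent.Results.MP_3ec6ac_an.LimitCycle.OrthogonalColumns (P Q : ℝ → ℝ → ℝ) : Prop :=
  ∀ x y : ℝ, deriv (fun t => P t y) x * deriv (fun t => P x t) y +
    deriv (fun t => Q t y) x * deriv (fun t => Q x t) y = 0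

/-- `γ` is a non-constant periodic orbit of the vector field `P ∂_x + Q ∂_y`: the set of the points of
a non-constant periodic solution. -/
def Pool.Agent.Results.MP_3ec6ac_an.LimitCycle.IsPeriodicOrbit (P Q : ℝ → ℝ → ℝ) (γ : Set (ℝ × ℝ)) :
    Prop :=
  ∃ (z : ℝ → ℝ × ℝ) (T : ℝ), (∀ t, HasDerivAt z (P (z t).1 (z t).2, Q (z t).1 (z t).2) t) ∧
    0 < T ∧ (∀ t, z (t + T) = z t) ∧ (¬ ∃ p, ∀ t, z t = p) ∧ γ = Set.range z

/-- `γ` is a limit cycle: a non-constant periodic orbit such that some neighbourhood of `γ` contains no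
other periodic orbit. -/
def Pool.Agent.Results.MP_3ec6ac_an.LimitCycle.IsLimitCycle (P Q : ℝ → ℝ → ℝ) (γ : Set (ℝ × ℝ)) :
    Prop :=
  Pool.Agent.Results.MP_3ec6ac_an.LimitCycle.IsPeriodicOrbit P Q γ ∧
    ∃ U : Set (ℝ × ℝ), IsOpen U ∧ γ ⊆ U ∧
      ∀ γ', Pool.Agent.Results.MP_3ec6ac_an.LimitCycle.IsPeriodicOrbit P Q γ' → γ' ⊆ U → γ' = γ

open Pool.Agent.Results.MP_3ec6ac_an.LimitCycle

theorem Pool.Agent.Results.MP_3ec6ac_an.LimitCycle.result :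
    ∃ P Q : ℝ → ℝ → ℝ, ContDiff ℝ ∞ (fun z : ℝ × ℝ => P z.1 z.2) ∧
      ContDiff ℝ ∞ (fun z : ℝ × ℝ => Q z.1 z.2) ∧ OrthogonalColumns P Q ∧
      ∃ γ : Set (ℝ × ℝ), IsLimitCycle P Q γ ∧ ∀ γ', IsPeriodicOrbit P Q γ' → γ' = γ := by
  have huniq : ∀ γ', IsPeriodicOrbit Pool.Agent.X85.OJ.P Pool.Agent.X85.OJ.Q γ' →
      γ' = Set.range Pool.Agent.X85.OJ.z1 := by
    rintro γ' ⟨z, T, hz, hT, hp, hn, rfl⟩
    exact Pool.Agent.X85.OJ.range_eq hz hT hp hn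
  refine ⟨Pool.Agent.X85.OJ.P, Pool.Agent.X85.OJ.Q, Pool.Agent.X85.OJ.P_contDiff,
    Pool.Agent.X85.OJ.Q_contDiff, Pool.Agent.X85.OJ.orthogonal, Set.range Pool.Agent.X85.OJ.z1,
    ⟨⟨Pool.Agent.X85.OJ.z1, Pool.Agent.X85.OJ.TT, Pool.Agent.X85.OJ.z1_hasDerivAt,
      Pool.Agent.X85.OJ.TT_pos, Pool.Agent.X85.OJ.z1_periodic, Pool.Agent.X85.OJ.z1_nonconst, rfl⟩,
      Set.univ, isOpen_univ, Set.subset_univ _, fun γ' h _ => huniq γ' h⟩, huniq⟩
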